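import Pool.Agent.Helper26.ME.LFT

/-!
# MP_bde085_nt, block E, module ADX: adapted matrices
-/

set_option autoImplicit false

namespace Pool.Agent.Helper96.ME

open Pool.Agent.Helper96.MP
open scoped MatrixGroups

/-- existence and uniqueness of adapted matrices -/
theorem st_ADX (hS : ST_SURJ) : ST_ADX := by
  intro M Q n hM hQ hco hn hcn p x q y hdet
  have c0 : Nat.Coprime n M := by
    have h1 : M ∣ Q * M ^ 2 := ⟨Q * M, by ring⟩
    exact Nat.Coprime.coprime_dvd_right h1 hcn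
  have c1 : Nat.Coprime n Q := Nat.Coprime.coprime_dvd_right (Dvd.intro _ rfl) hcn
  refine ⟨?_, ?_⟩
  · have hc : IsCoprime (n : ℤ) ((M * Q : ℕ) : ℤ) := Nat.isCoprime_iff_coprime.2 (Nat.Coprime.mul_right c0 c1)
    obtain ⟨u, v, huv⟩ := hc
    -- `u * n = 1` modulo `M Q`
    have d : ((M * Q : ℕ) : ℤ) ∣ (u * p) * y - (u * x) * q - 1 := by
      refine ⟨-v, ?_⟩
      linear_combination u * hdet + huv
    obtain ⟨p', x', q', y', hd, k1, k2, k3, k4⟩ := (hS (M * Q) (Nat.mul_pos hM hQ)).2 _ _ _ _ d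
    have dM : (M : ℤ) ∣ ((M * Q : ℕ) : ℤ) := ⟨Q, by push_cast; ring⟩
    have dQ : (Q : ℤ) ∣ ((M * Q : ℕ) : ℤ) := ⟨M, by push_cast; ring⟩
    refine ⟨⟨!![p', x'; q', y'], by rw [Matrix.det_fin_two_of]; exact hd⟩, ?_, ?_, ?_, ?_, 1, isCoprime_one_left, ?_, ?_⟩
    · show (M : ℤ) ∣ n * p' - p
      have e : (n : ℤ) * p' - p = n * (p' - u * p) - ((M * Q : ℕ) : ℤ) * (v * p) := by
        linear_combination p * huv
      rw [e]
      exact dvd_sub (Dvd.dvd.mul_left (dM.trans k1) _) (Dvd.dvd.mul_right dM _)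
    · show (M : ℤ) ∣ n * x' - x
      have e : (n : ℤ) * x' - x = n * (x' - u * x) - ((M * Q : ℕ) : ℤ) * (v * x) := by
        linear_combination x * huv
      rw [e]
      exact dvd_sub (Dvd.dvd.mul_left (dM.trans k2) _) (Dvd.dvd.mul_right dM _)
    · exact dM.trans k3
    · exact dM.trans k4
    · show (Q : ℤ) ∣ q - 1 * q'
      rw [one_mul]
      exact (dvd_sub_comm).mp (dQ.trans k3)
    · show (Q : ℤ) ∣ y - 1 * y'
      rw [one_mul]
      exact (dvd_sub_comm).mp (dQ.trans k4)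
  · rintro Y Y' ⟨h1, h2, h3, h4, h5⟩ ⟨h1', h2', h3', h4', h5'⟩
    have cM : IsCoprime (M : ℤ) (n : ℤ) := Nat.isCoprime_iff_coprime.2 c0.symm
    have e1 : (M : ℤ) ∣ Y 0 0 - Y' 0 0 := by
      refine cM.dvd_of_dvd_mul_left ?_
      have e : (n : ℤ) * (Y 0 0 - Y' 0 0) = (n * Y 0 0 - p) - (n * Y' 0 0 - p) := by ring
      rw [e]
      exact dvd_sub h1 h1'
    have e2 : (M : ℤ) ∣ Y 0 1 - Y' 0 1 := by
      refine cM.dvd_of_dvd_mul_left ?_
      have e : (n : ℤ) * (Y 0 1 - Y' 0 1) = (n * Y 0 1 - x) - (n * Y' 0 1 - x) := by ring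
      rw [e]
      exact dvd_sub h2 h2'
    have e3 : (M : ℤ) ∣ Y 1 0 - Y' 1 0 := by
      have e : Y 1 0 - Y' 1 0 = (Y 1 0 - q) - (Y' 1 0 - q) := by ring
      rw [e]
      exact dvd_sub h3 h3'
    have e4 : (M : ℤ) ∣ Y 1 1 - Y' 1 1 := by
      have e : Y 1 1 - Y' 1 1 = (Y 1 1 - y) - (Y' 1 1 - y) := by ring
      rw [e]
      exact dvd_sub h4 h4'
    refine ⟨?_, ?_⟩
    · apply Lib.ext4
      · rw [Lib.rd_apply, Lib.rd_apply, lft_cast e1]
      · rw [Lib.rd_apply, Lib.rd_apply, lft_cast e2]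
      · rw [Lib.rd_apply, Lib.rd_apply, lft_cast e3]
      · rw [Lib.rd_apply, Lib.rd_apply, lft_cast e4]
    · exact Quotient.sound (eqv_trans h5 (eqv_symm h5'))

end Pool.Agent.Helper96.ME
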