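import Pool.Agent.Helper96.ME.Lib

/-!
# MP_bde085_nt, block E, module LFT: lifts
-/

set_option autoImplicit false

namespace Pool.Agent.Helper96.ME

open Pool.Agent.Helper96.MP
open scoped MatrixGroups

/-- simultaneous lifting modulo `M` and modulo `Q` -/
theorem lft_crt (hS : ST_SURJ) {M Q : ℕ} (hM : 1 ≤ M) (hQ : 1 ≤ Q) (hc : Nat.Coprime Q M)
    (a b c d a' b' c' d' : ℤ) (h : (M : ℤ) ∣ a * d - b * c - 1) (h' : (Q : ℤ) ∣ a' * d' - b' * c' - 1) :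
    ∃ y : SL(2, ℤ), ((M : ℤ) ∣ y 0 0 - a ∧ (M : ℤ) ∣ y 0 1 - b ∧ (M : ℤ) ∣ y 1 0 - c ∧ (M : ℤ) ∣ y 1 1 - d) ∧
      ((Q : ℤ) ∣ y 0 0 - a' ∧ (Q : ℤ) ∣ y 0 1 - b' ∧ (Q : ℤ) ∣ y 1 0 - c' ∧ (Q : ℤ) ∣ y 1 1 - d') := by
  have hco : IsCoprime (M : ℤ) (Q : ℤ) := Nat.isCoprime_iff_coprime.2 hc.symm
  obtain ⟨u, v, huv⟩ := hco
  have eM : ∀ s t : ℤ, (M : ℤ) ∣ (s * (v * Q) + t * (u * M)) - s := by
    intro s t
    refine ⟨u * (t - s), ?_⟩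
    linear_combination s * huv
  have eQ : ∀ s t : ℤ, (Q : ℤ) ∣ (s * (v * Q) + t * (u * M)) - t := by
    intro s t
    refine ⟨v * (s - t), ?_⟩
    linear_combination t * huv
  have key : ∀ (K : ℤ) (A B C D A' B' C' D' : ℤ), K ∣ A - A' → K ∣ B - B' → K ∣ C - C' → K ∣ D - D' →
      K ∣ A' * D' - B' * C' - 1 → K ∣ A * D - B * C - 1 := by
    intro K A B C D A' B' C' D' h1 h2 h3 h4 h5
    have e : A * D - B * C - 1 = (A - A') * D + A' * (D - D') - (B - B') * C - B' * (C - C') +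
        (A' * D' - B' * C' - 1) := by ring
    rw [e]
    exact dvd_add (dvd_sub (dvd_sub (dvd_add (Dvd.dvd.mul_right h1 _) (Dvd.dvd.mul_left h4 _))
      (Dvd.dvd.mul_right h2 _)) (Dvd.dvd.mul_left h3 _)) h5
  have d1 := key M _ _ _ _ _ _ _ _ (eM a a') (eM b b') (eM c c') (eM d d') h
  have d2 := key Q _ _ _ _ _ _ _ _ (eQ a a') (eQ b b') (eQ c c') (eQ d d') h'
  have d3 : ((M * Q : ℕ) : ℤ) ∣ (a * (v * Q) + a' * (u * M)) * (d * (v * Q) + d' * (u * M)) -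
      (b * (v * Q) + b' * (u * M)) * (c * (v * Q) + c' * (u * M)) - 1 := by
    push_cast
    exact IsCoprime.mul_dvd ⟨u, v, huv⟩ d1 d2
  obtain ⟨p', q', r', s', hdet, k1, k2, k3, k4⟩ := (hS (M * Q) (Nat.mul_pos hM hQ)).2 _ _ _ _ d3
  have dM : (M : ℤ) ∣ ((M * Q : ℕ) : ℤ) := ⟨Q, by push_cast; ring⟩
  have dQ : (Q : ℤ) ∣ ((M * Q : ℕ) : ℤ) := ⟨M, by push_cast; ring⟩
  have tr : ∀ (K x y z : ℤ), K ∣ x - y → K ∣ y - z → K ∣ x - z := by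
    intro K x y z h1 h2
    have := dvd_add h1 h2
    rwa [sub_add_sub_cancel] at this
  refine ⟨⟨!![p', q'; r', s'], by rw [Matrix.det_fin_two_of]; exact hdet⟩, ⟨?_, ?_, ?_, ?_⟩, ?_, ?_, ?_, ?_⟩
  · exact tr _ _ _ _ (dM.trans k1) (eM a a')
  · exact tr _ _ _ _ (dM.trans k2) (eM b b')
  · exact tr _ _ _ _ (dM.trans k3) (eM c c')
  · exact tr _ _ _ _ (dM.trans k4) (eM d d')
  · exact tr _ _ _ _ (dQ.trans k1) (eQ a a')
  · exact tr _ _ _ _ (dQ.trans k2) (eQ b b')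
  · exact tr _ _ _ _ (dQ.trans k3) (eQ c c')
  · exact tr _ _ _ _ (dQ.trans k4) (eQ d d')

/-- integral representatives -/
theorem lft_rep {M : ℕ} (g : SL(2, ZMod M)) : ∃ a b c d : ℤ, (a : ZMod M) = g 0 0 ∧ (b : ZMod M) = g 0 1 ∧
    (c : ZMod M) = g 1 0 ∧ (d : ZMod M) = g 1 1 ∧ (M : ℤ) ∣ a * d - b * c - 1 := by
  obtain ⟨a, ha⟩ := ZMod.intCast_surjective (g 0 0)
  obtain ⟨b, hb⟩ := ZMod.intCast_surjective (g 0 1)
  obtain ⟨c, hc⟩ := ZMod.intCast_surjective (g 1 0)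
  obtain ⟨d, hd⟩ := ZMod.intCast_surjective (g 1 1)
  refine ⟨a, b, c, d, ha, hb, hc, hd, ?_⟩
  rw [← ZMod.intCast_zmod_eq_zero_iff_dvd]
  push_cast
  rw [ha, hb, hc, hd, Lib.det1 g, sub_self]

theorem lft_cast {M : ℕ} {x y : ℤ} (h : (M : ℤ) ∣ x - y) : (x : ZMod M) = (y : ZMod M) := by
  rw [← ZMod.intCast_zmod_eq_zero_iff_dvd] at h
  push_cast at h
  exact sub_eq_zero.1 h

theorem lft_rd {M : ℕ} {g : SL(2, ZMod M)} {y : SL(2, ℤ)} {a b c d : ℤ} (ha : (a : ZMod M) = g 0 0)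
    (hb : (b : ZMod M) = g 0 1) (hc : (c : ZMod M) = g 1 0) (hd : (d : ZMod M) = g 1 1)
    (h : (M : ℤ) ∣ y 0 0 - a ∧ (M : ℤ) ∣ y 0 1 - b ∧ (M : ℤ) ∣ y 1 0 - c ∧ (M : ℤ) ∣ y 1 1 - d) :
    rd M y = g := by
  obtain ⟨h1, h2, h3, h4⟩ := h
  apply Lib.ext4
  · rw [Lib.rd_apply, lft_cast h1, ha]
  · rw [Lib.rd_apply, lft_cast h2, hb]
  · rw [Lib.rd_apply, lft_cast h3, hc]
  · rw [Lib.rd_apply, lft_cast h4, hd]

/-- lifts -/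
theorem st_LFT (hS : ST_SURJ) (hC : ST_COS) : ST_LFT := by
  intro M Q hM hQ hco
  refine ⟨fun g => ?_, fun g z => ?_⟩
  · have hex : ∃ γ : SL(2, ℤ), (Q : ℤ) ∣ γ 1 0 ∧ rd M γ = g := by
      obtain ⟨a, b, c, d, ha, hb, hc, hd, hdet⟩ := lft_rep g
      obtain ⟨y, k1, k2⟩ := lft_crt hS hM hQ hco a b c d 1 0 0 1 hdet (by norm_num)
      refine ⟨y, ?_, lft_rd ha hb hc hd k1⟩
      have := k2.2.2.1
      rwa [sub_zero] at this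
    unfold lf
    rw [dif_pos hex]
    exact Classical.choose_spec hex
  · obtain ⟨a, b, c, d, ha, hb, hc, hd, hdet⟩ := lft_rep g
    have hz := (hC Q hQ).1 z
    set y0 := rep Q z with hy0
    have hdet0 : y0 0 0 * y0 1 1 - y0 0 1 * y0 1 0 - 1 = 0 := by
      rw [Lib.det1 y0, sub_self]
    obtain ⟨y, k1, k2⟩ := lft_crt hS hM hQ hco a b c d (y0 0 0) (y0 0 1) (y0 1 0) (y0 1 1) hdet
      (by rw [hdet0]; exact dvd_zero _)
    refine ⟨y, lft_rd ha hb hc hd k1, ?_⟩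
    rw [← hz]
    refine Quotient.sound ?_
    show eqv Q (y 1 0) (y 1 1) (y0 1 0) (y0 1 1)
    refine ⟨1, isCoprime_one_left, ?_, ?_⟩
    · rw [one_mul]
      exact (dvd_sub_comm).mp k2.2.2.1
    · rw [one_mul]
      exact (dvd_sub_comm).mp k2.2.2.2

end Pool.Agent.Helper96.ME
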